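import Pool.Agent.Helper13.TW.StA

/-!
# Module ARB of project TW: basic properties of arcs
-/

set_option autoImplicit false

namespace Pool.Agent.Helper26.TW

open Set Topology Pool.Agent.Helper13.TR Pool.Agent.Helper13.TW

private lemma toReal {S : Type} [TopologicalSpace S] {D : Set S} {p q : S} (h : IsArc D p q) :
    ∃ g : ℝ → S, Continuous g ∧ InjOn g (Icc 0 1) ∧ g 0 = p ∧ g 1 = q ∧ g '' Icc 0 1 = D := by
  obtain ⟨γ, hi, hr⟩ := h
  have he : ∀ t (ht : t ∈ Icc (0 : ℝ) 1), γ.extend t = γ ⟨t, ht⟩ := fun t ht =>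
    γ.extend_apply ht
  refine ⟨γ.extend, γ.continuous_extend, ?_, by simp, by simp, ?_⟩
  · intro s hs t ht hst
    rw [he s hs, he t ht] at hst
    have := hi hst
    exact congrArg Subtype.val this
  · rw [← hr]
    ext x
    constructor
    · rintro ⟨t, ht, rfl⟩
      exact ⟨⟨t, ht⟩, (he t ht).symm⟩
    · rintro ⟨t, rfl⟩
      exact ⟨t, t.2, he t.1 t.2⟩

private lemma ofReal {S : Type} [TopologicalSpace S] (g : ℝ → S) {a b : ℝ} (hab : a < b)
    (hc : ContinuousOn g (Icc a b)) (hi : InjOn g (Icc a b)) :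
    IsArc (g '' Icc a b) (g a) (g b) := by
  have hm : ∀ t : unitInterval, a + (t : ℝ) * (b - a) ∈ Icc a b := by
    intro t
    have h0 := t.2.1
    have h1 := t.2.2
    constructor <;> nlinarith
  refine ⟨⟨⟨fun t => g (a + (t : ℝ) * (b - a)), ?_⟩, ?_, ?_⟩, ?_, ?_⟩
  · exact hc.comp_continuous (by fun_prop) hm
  · simp
  · simp
  · intro s t hst
    have h2 := hi (hm s) (hm t) hst
    have h3 : (s : ℝ) * (b - a) = t * (b - a) := by linarith
    have h4 := mul_right_cancel₀ (sub_ne_zero.2 hab.ne') h3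
    exact Subtype.ext h4
  · ext x
    constructor
    · rintro ⟨t, rfl⟩
      exact ⟨_, hm t, rfl⟩
    · rintro ⟨t, ht, rfl⟩
      have hpos : 0 < b - a := sub_pos.2 hab
      refine ⟨⟨(t - a) / (b - a), ⟨div_nonneg (sub_nonneg.2 ht.1) hpos.le,
        (div_le_one hpos).2 (by linarith [ht.2])⟩⟩, ?_⟩
      change g (a + (t - a) / (b - a) * (b - a)) = g t
      rw [div_mul_cancel₀ _ hpos.ne']
      congr 1
      ring

private lemma symm' {S : Type} [TopologicalSpace S] {D : Set S} {p q : S} (h : IsArc D p q) :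
    IsArc D q p := by
  obtain ⟨γ, hi, hr⟩ := h
  refine ⟨γ.symm, ?_, ?_⟩
  · intro s t hst
    have : unitInterval.symm s = unitInterval.symm t := hi hst
    have h2 := congrArg unitInterval.symm this
    simpa using h2
  · rw [Path.symm_range, hr]

private lemma diffp {S : Type} (g : ℝ → S) (hi : InjOn g (Icc 0 1)) :
    (g '' Icc 0 1) \ {g 0} = g '' Ioc 0 1 := by
  ext x
  constructor
  · rintro ⟨⟨t, ht, rfl⟩, hx⟩
    refine ⟨t, ⟨lt_of_le_of_ne ht.1 ?_, ht.2⟩, rfl⟩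
    rintro rfl
    exact hx rfl
  · rintro ⟨t, ht, rfl⟩
    refine ⟨⟨t, ⟨ht.1.le, ht.2⟩, rfl⟩, ?_⟩
    intro h
    have := hi ⟨ht.1.le, ht.2⟩ ⟨le_rfl, zero_le_one⟩ h
    exact ht.1.ne' this

private lemma diffq {S : Type} (g : ℝ → S) (hi : InjOn g (Icc 0 1)) :
    (g '' Icc 0 1) \ {g 1} = g '' Ico 0 1 := by
  ext x
  constructor
  · rintro ⟨⟨t, ht, rfl⟩, hx⟩
    refine ⟨t, ⟨ht.1, lt_of_le_of_ne ht.2 ?_⟩, rfl⟩
    rintro rfl
    exact hx rfl
  · rintro ⟨t, ht, rfl⟩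
    refine ⟨⟨t, ⟨ht.1, ht.2.le⟩, rfl⟩, ?_⟩
    intro h
    have := hi ⟨ht.1, ht.2.le⟩ ⟨zero_le_one, le_rfl⟩ h
    exact ht.2.ne this

private lemma diffpq {S : Type} (g : ℝ → S) (hi : InjOn g (Icc 0 1)) :
    (g '' Icc 0 1) \ {g 0, g 1} = g '' Ioo 0 1 := by
  ext x
  constructor
  · rintro ⟨⟨t, ht, rfl⟩, hx⟩
    refine ⟨t, ⟨lt_of_le_of_ne ht.1 ?_, lt_of_le_of_ne ht.2 ?_⟩, rfl⟩
    · rintro rfl
      exact hx (Or.inl rfl)
    · rintro rfl
      exact hx (Or.inr rfl)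
  · rintro ⟨t, ht, rfl⟩
    refine ⟨⟨t, ⟨ht.1.le, ht.2.le⟩, rfl⟩, ?_⟩
    rintro (h | h)
    · have := hi ⟨ht.1.le, ht.2.le⟩ ⟨le_rfl, zero_le_one⟩ h
      exact ht.1.ne' this
    · have := hi ⟨ht.1.le, ht.2.le⟩ ⟨zero_le_one, le_rfl⟩ h
      exact ht.2.ne this

private lemma part1 (S : Type) [TopologicalSpace S] (D : Set S) (p q : S)
    (h : IsArc D p q) :
    IsArc D q p ∧ IsCompact D ∧ p ∈ D ∧ q ∈ D ∧ p ≠ q ∧ IsPathConnected D ∧
      IsPathConnected (D \ {p}) ∧ IsPathConnected (D \ {q}) ∧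
      IsPathConnected (D \ {p, q}) ∧ p ∈ closure (D \ {p, q}) ∧ q ∈ closure (D \ {p, q}) ∧
      JoinedIn D p q := by
  refine ⟨symm' h, ?_⟩
  have hj : JoinedIn D p q := by
    obtain ⟨γ, hi, hr⟩ := h
    exact ⟨γ, fun t => hr ▸ mem_range_self t⟩
  obtain ⟨g, hc, hi, h0, h1, hD⟩ := toReal h
  have m0 : (0 : ℝ) ∈ Icc (0 : ℝ) 1 := ⟨le_rfl, zero_le_one⟩
  have m1 : (1 : ℝ) ∈ Icc (0 : ℝ) 1 := ⟨zero_le_one, le_rfl⟩
  have epq : D \ {p, q} = g '' Ioo 0 1 := by rw [← hD, ← h0, ← h1]; exact diffpq g hi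
  have ep : D \ {p} = g '' Ioc 0 1 := by rw [← hD, ← h0]; exact diffp g hi
  have eq' : D \ {q} = g '' Ico 0 1 := by rw [← hD, ← h1]; exact diffq g hi
  refine ⟨hD ▸ isCompact_Icc.image hc, hD ▸ h0 ▸ mem_image_of_mem g m0,
    hD ▸ h1 ▸ mem_image_of_mem g m1, ?_, ?_, ?_, ?_, ?_, ?_, ?_, hj⟩
  · rw [← h0, ← h1]
    intro h
    exact zero_ne_one (hi m0 m1 h)
  · rw [← hD]
    exact ((convex_Icc (0 : ℝ) 1).isPathConnected ⟨0, m0⟩).image hc
  · rw [ep]
    exact ((convex_Ioc (0 : ℝ) 1).isPathConnected ⟨1, zero_lt_one, le_rfl⟩).image hc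
  · rw [eq']
    exact ((convex_Ico (0 : ℝ) 1).isPathConnected ⟨0, le_rfl, zero_lt_one⟩).image hc
  · rw [epq]
    exact ((convex_Ioo (0 : ℝ) 1).isPathConnected ⟨1 / 2, by norm_num, by norm_num⟩).image hc
  · rw [epq, ← h0]
    apply image_closure_subset_closure_image hc
    apply mem_image_of_mem
    rw [closure_Ioo zero_ne_one]
    exact m0
  · rw [epq, ← h1]
    apply image_closure_subset_closure_image hc
    apply mem_image_of_mem
    rw [closure_Ioo zero_ne_one]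
    exact m1

private lemma part2 (S : Type) [TopologicalSpace S] (D : Set S) (p q r : S)
    (h : IsArc D p q) (hr : r ∈ D) (hp : r ≠ p) (hq : r ≠ q) :
    ∃ D₁ D₂ : Set S, IsArc D₁ p r ∧ IsArc D₂ r q ∧ D₁ ∪ D₂ = D ∧ D₁ ∩ D₂ = {r} := by
  obtain ⟨g, hc, hi, h0, h1, hD⟩ := toReal h
  rw [← hD] at hr
  obtain ⟨t, ht, rfl⟩ := hr
  have t0 : 0 < t := lt_of_le_of_ne ht.1 (by rintro rfl; exact hp h0)
  have t1 : t < 1 := lt_of_le_of_ne ht.2 (by rintro rfl; exact hq h1)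
  have s1 : Icc 0 t ⊆ Icc (0 : ℝ) 1 := Icc_subset_Icc le_rfl ht.2
  have s2 : Icc t 1 ⊆ Icc (0 : ℝ) 1 := Icc_subset_Icc ht.1 le_rfl
  refine ⟨g '' Icc 0 t, g '' Icc t 1, ?_, ?_, ?_, ?_⟩
  · have := ofReal g t0 hc.continuousOn (hi.mono s1)
    rwa [h0] at this
  · have := ofReal g t1 hc.continuousOn (hi.mono s2)
    rwa [h1] at this
  · rw [← image_union, Icc_union_Icc_eq_Icc ht.1 ht.2, hD]
  · rw [← hi.image_inter s1 s2]
    have : Icc 0 t ∩ Icc t 1 = {t} := by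
      ext x
      constructor
      · rintro ⟨a, b⟩
        exact le_antisymm a.2 b.1
      · rintro rfl
        exact ⟨⟨ht.1, le_rfl⟩, ⟨le_rfl, ht.2⟩⟩
    rw [this, image_singleton]

private lemma part3 (S : Type) [TopologicalSpace S] (D₁ D₂ : Set S) (p q r : S)
    (h₁ : IsArc D₁ p r) (h₂ : IsArc D₂ r q) (hI : D₁ ∩ D₂ = {r}) : IsArc (D₁ ∪ D₂) p q := by
  obtain ⟨g, hc, hi, h0, h1, hD⟩ := toReal h₁
  obtain ⟨k, kc, ki, k0, k1, kD⟩ := toReal h₂
  set f : ℝ → S := fun t => if t ≤ 0 then g (t + 1) else k t with hf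
  have hfc : Continuous f := by
    refine Continuous.if_le (hc.comp (by fun_prop)) kc continuous_id continuous_const ?_
    intro t ht
    have ht' : t = 0 := ht
    rw [ht', zero_add, h1, k0]
  have f1 : ∀ t, t ≤ 0 → f t = g (t + 1) := fun t ht => if_pos ht
  have f2 : ∀ t, ¬ t ≤ 0 → f t = k t := fun t ht => if_neg ht
  have key : ∀ s ∈ Icc (-1 : ℝ) 1, ∀ t ∈ Icc (-1 : ℝ) 1, s ≤ 0 → ¬ t ≤ 0 → f s ≠ f t := by
    intro s hs t ht hs0 ht0 hst
    rw [f1 s hs0, f2 t ht0] at hst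
    have ms : s + 1 ∈ Icc (0 : ℝ) 1 := ⟨by linarith [hs.1], by linarith⟩
    have mt : t ∈ Icc (0 : ℝ) 1 := ⟨(not_le.1 ht0).le, ht.2⟩
    have m : k t ∈ D₁ ∩ D₂ := ⟨hst ▸ hD ▸ mem_image_of_mem g ms, kD ▸ mem_image_of_mem k mt⟩
    rw [hI, mem_singleton_iff, ← k0] at m
    have := ki mt ⟨le_rfl, zero_le_one⟩ m
    exact ht0 this.le
  have hfi : InjOn f (Icc (-1) 1) := by
    intro s hs t ht hst
    by_cases hs0 : s ≤ 0 <;> by_cases ht0 : t ≤ 0
    · rw [f1 s hs0, f1 t ht0] at hst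
      have := hi ⟨by linarith [hs.1], by linarith⟩ ⟨by linarith [ht.1], by linarith⟩ hst
      linarith
    · exact absurd hst (key s hs t ht hs0 ht0)
    · exact absurd hst.symm (key t ht s hs ht0 hs0)
    · rw [f2 s hs0, f2 t ht0] at hst
      exact ki ⟨(not_le.1 hs0).le, hs.2⟩ ⟨(not_le.1 ht0).le, ht.2⟩ hst
  have hA := ofReal f (by norm_num : (-1 : ℝ) < 1) hfc.continuousOn hfi
  have e1 : f (-1) = p := by
    rw [f1 _ (by norm_num)]
    norm_num
    exact h0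
  have e2 : f 1 = q := by
    rw [f2 _ (by norm_num)]
    exact k1
  have e3 : f '' Icc (-1) 1 = D₁ ∪ D₂ := by
    ext x
    constructor
    · rintro ⟨t, ht, rfl⟩
      by_cases ht0 : t ≤ 0
      · left
        rw [f1 t ht0, ← hD]
        exact mem_image_of_mem g ⟨by linarith [ht.1], by linarith⟩
      · right
        rw [f2 t ht0, ← kD]
        exact mem_image_of_mem k ⟨(not_le.1 ht0).le, ht.2⟩
    · rintro (hx | hx)
      · rw [← hD] at hx
        obtain ⟨t, ht, rfl⟩ := hx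
        refine ⟨t - 1, ⟨by linarith [ht.1], by linarith [ht.2]⟩, ?_⟩
        rw [f1 _ (by linarith [ht.2])]
        congr 1
        ring
      · rw [← kD] at hx
        obtain ⟨t, ht, rfl⟩ := hx
        by_cases ht0 : t ≤ 0
        · have : t = 0 := le_antisymm ht0 ht.1
          subst this
          refine ⟨0, ⟨by norm_num, by norm_num⟩, ?_⟩
          rw [f1 _ le_rfl, k0, zero_add, h1]
        · exact ⟨t, ⟨by linarith [ht.1], ht.2⟩, f2 t ht0⟩
  rwa [e1, e2, e3] at hA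

private lemma part4 (S : Type) [TopologicalSpace S] (D F : Set S) (p q : S)
    (h : IsArc D p q) (hF : IsClosed F) (hp : p ∉ F) (hne : (D ∩ F).Nonempty) :
    ∃ r ∈ F, ∃ D₁ ⊆ D, IsArc D₁ p r ∧ D₁ ∩ F = {r} := by
  obtain ⟨g, hc, hi, h0, h1, hD⟩ := toReal h
  obtain ⟨x, hxD, hxF⟩ := hne
  rw [← hD] at hxD
  obtain ⟨s, hs, rfl⟩ := hxD
  have hcpt : IsCompact (Icc (0 : ℝ) 1 ∩ g ⁻¹' F) := isCompact_Icc.inter_right (hF.preimage hc)
  obtain ⟨t, ⟨ht, htF⟩, hmin⟩ := hcpt.exists_isLeast ⟨s, hs, hxF⟩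
  have t0 : 0 < t := lt_of_le_of_ne ht.1 (by
    rintro rfl
    apply hp
    rw [← h0]
    exact htF)
  have s1 : Icc 0 t ⊆ Icc (0 : ℝ) 1 := Icc_subset_Icc le_rfl ht.2
  refine ⟨g t, htF, g '' Icc 0 t, ?_, ?_, ?_⟩
  · rw [← hD]
    exact image_mono s1
  · have := ofReal g t0 hc.continuousOn (hi.mono s1)
    rwa [h0] at this
  · ext x
    constructor
    · rintro ⟨⟨a, ha, rfl⟩, hx⟩
      have := hmin ⟨s1 ha, hx⟩
      rw [mem_singleton_iff]
      congr 1
      exact le_antisymm ha.2 this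
    · rintro rfl
      exact ⟨mem_image_of_mem g ⟨ht.1, le_rfl⟩, htF⟩

private lemma part5 (S S' : Type) [TopologicalSpace S] [T2Space S] [TopologicalSpace S']
    (D : Set S) (D' : Set S') (p q : S) (p' q' : S') (h : IsArc D p q) (h' : IsArc D' p' q') :
    ∃ f : S → S', ContinuousOn f D ∧ InjOn f D ∧ f '' D = D' ∧ f p = p' ∧ f q = q' := by
  obtain ⟨γ, hi, hr⟩ := h
  obtain ⟨δ, di, dr⟩ := h'
  have hemb : IsClosedEmbedding γ := γ.continuous.isClosedEmbedding hi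
  set f : S → S' := Function.extend γ δ (fun _ => p') with hf
  have fe : ∀ t, f (γ t) = δ t := fun t => hi.extend_apply δ _ t
  refine ⟨f, ?_, ?_, ?_, ?_, ?_⟩
  · rw [← hr, continuousOn_iff_continuous_restrict]
    set e := hemb.isEmbedding.toHomeomorph with he
    have : (range γ).domRestrict f = δ ∘ e.symm := by
      funext x
      obtain ⟨t, ht⟩ := e.surjective x
      subst ht
      rw [Function.comp, e.symm_apply_apply]
      exact fe t
    rw [this]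
    exact δ.continuous.comp e.symm.continuous
  · rw [← hr]
    rintro _ ⟨s, rfl⟩ _ ⟨t, rfl⟩ hst
    rw [fe, fe] at hst
    rw [di hst]
  · rw [← hr, ← range_comp, ← dr]
    congr 1
    funext t
    exact fe t
  · have := fe 0
    rwa [γ.source, δ.source] at this
  · have := fe 1
    rwa [γ.target, δ.target] at this

private lemma part6 (S S' : Type) [TopologicalSpace S] [TopologicalSpace S']
    (D : Set S) (p q : S) (f : S → S') (h : IsArc D p q) (hc : ContinuousOn f D)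
    (hi : InjOn f D) : IsArc (f '' D) (f p) (f q) := by
  obtain ⟨γ, gi, hr⟩ := h
  refine ⟨⟨⟨fun t => f (γ t), ?_⟩, ?_, ?_⟩, ?_, ?_⟩
  · exact hc.comp_continuous γ.continuous (fun t => hr ▸ mem_range_self t)
  · simp
  · simp
  · intro s t hst
    exact gi (hi (hr ▸ mem_range_self s) (hr ▸ mem_range_self t) hst)
  · subst hr
    exact range_comp f γ

theorem hARB : StARB := by
  refine ⟨?_, ?_, ?_, ?_, ?_, ?_⟩
  · intro S _ _ D p q h
    exact part1 S D p q h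
  · intro S _ _ D p q r h hr hp hq
    exact part2 S D p q r h hr hp hq
  · intro S _ _ D₁ D₂ p q r h₁ h₂ hI
    exact part3 S D₁ D₂ p q r h₁ h₂ hI
  · intro S _ _ D F p q h hF hp hne
    exact part4 S D F p q h hF hp hne
  · intro S S' _ _ _ _ D D' p q p' q' h h'
    exact part5 S S' D D' p q p' q' h h'
  · intro S S' _ _ _ D p q f h hc hi
    exact part6 S S' D p q f h hc hi

end Pool.Agent.Helper26.TW
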